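import Mathlib
import Pool.Agent.Lib.MP_582e4a_co.Defs
import Pool.Agent.Lib.MP_582e4a_co.Main

/-!
# The complete graph maximises the trace of the adjacency average mixing matrix

`avgMixing X` is `∑_θ E_θ ∘ E_θ`, see `Pool/Agent/Lib/MP_582e4a_co/Defs.lean`. Every connected
graph `X` on a finite vertex set `V` satisfies
`tr (avgMixing X) ≤ tr (avgMixing K_V) = (n² - 2 n + 2) / n` with `n = |V|`.
-/

namespace Pool.Agent.Results.MP_582e4a_co.CompleteMaximal

theorem result {V : Type} [Fintype V] (X : SimpleGraph V) (hX : X.Connected) :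
    (MP_582e4a_co.avgMixing X).trace ≤ (MP_582e4a_co.avgMixing (⊤ : SimpleGraph V)).trace ∧
      (MP_582e4a_co.avgMixing (⊤ : SimpleGraph V)).trace =
        ((Fintype.card V : ℝ) ^ 2 - 2 * Fintype.card V + 2) / Fintype.card V := by
  have hne : Nonempty V := hX.nonempty
  have htop := MP_582e4a_co.trace_top (V := V)
  refine ⟨?_, htop⟩
  by_cases hn : 2 ≤ Fintype.card V
  · rw [htop]
    exact MP_582e4a_co.trace_le hX hn
  · have hsub : Subsingleton V := by
      rw [← Fintype.card_le_one_iff_subsingleton]
      omega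
    have hXt : X = ⊤ := by
      ext v w
      have hvw : v = w := Subsingleton.elim v w
      subst hvw
      simp
    rw [hXt]

end Pool.Agent.Results.MP_582e4a_co.CompleteMaximal
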